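import Pool.Agent.Y318.LF.Stm

set_option autoImplicit false

/-! Project LF, task CJATT. -/

open Set Filter Topology MeasureTheory

namespace Pool.Agent.Y210.LF

open Pool.Agent.H728R2.OS Pool.Agent.H637R2.TD Pool.Agent.Y318.LF

theorem toTorus_surj {d : ℕ} : Function.Surjective (toTorus (d := d)) := by
  intro x
  have h : ∀ i, ∃ z : ℝ, (z : UnitAddCircle) = x i := fun i => QuotientAddGroup.mk_surjective (x i)
  choose z hz using h
  exact ⟨z, funext hz⟩

theorem toTorus_add {d : ℕ} (z w : Fin d → ℝ) : toTorus (z + w) = toTorus z + toTorus w := by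
  funext i
  exact AddCircle.coe_add _ _ _

theorem map_add_of_lift {d : ℕ} {A : (Fin d → ℝ) ≃L[ℝ] (Fin d → ℝ)} {T : Torus d ≃ₜ Torus d}
    (h : IsLift toTorus A T) (x y : Torus d) : T (x + y) = T x + T y := by
  obtain ⟨z, rfl⟩ := toTorus_surj x
  obtain ⟨w, rfl⟩ := toTorus_surj y
  rw [← toTorus_add, ← h, ← h, ← h, map_add, toTorus_add]

/-- `T` as a homomorphism -/
def homT {d : ℕ} {A : (Fin d → ℝ) ≃L[ℝ] (Fin d → ℝ)} {T : Torus d ≃ₜ Torus d}
    (h : IsLift toTorus A T) : Torus d →+ Torus d where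
  toFun := T
  map_zero' := by
    have h1 := map_add_of_lift h 0 0
    rw [add_zero] at h1
    exact left_eq_add.1 h1
  map_add' := map_add_of_lift h

theorem mp {d : ℕ} {A : (Fin d → ℝ) ≃L[ℝ] (Fin d → ℝ)} {T : Torus d ≃ₜ Torus d}
    (h : IsLift toTorus A T) : MeasurePreserving T (volume : Measure (Torus d)) volume :=
  (homT h).measurePreserving T.continuous T.surjective rfl

theorem vol_image {d : ℕ} {A : (Fin d → ℝ) ≃L[ℝ] (Fin d → ℝ)} {T : Torus d ≃ₜ Torus d}
    (h : IsLift toTorus A T) (S : Set (Torus d)) : volume (T '' S) = volume S := by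
  have h1 : MeasurePreserving (T.toMeasurableEquiv) (volume : Measure (Torus d)) volume := mp h
  have h2 := h1.measure_preimage_equiv (T '' S)
  have h3 : T.toMeasurableEquiv ⁻¹' (T '' S) = S := preimage_image_eq S T.injective
  rw [h3] at h2
  exact h2.symm

section conj

variable {X : Type*} [TopologicalSpace X] (T f : X ≃ₜ X)

theorem cj_iter (g : X → X) (hg : ∀ x, g (T x) = T (f x)) (n : ℕ) (x : X) :
    g^[n] (T x) = T (f^[n] x) := by
  induction n generalizing x with
  | zero => rfl
  | succ n ih => rw [Function.iterate_succ_apply, hg, ih, Function.iterate_succ_apply]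

theorem omegaLim_cj (g : X → X) (hg : ∀ x, g (T x) = T (f x)) (p : X) :
    omegaLim g (T p) = T '' omegaLim f p := by
  have h1 : (fun n : ℕ => g^[n] (T p)) = T ∘ fun n : ℕ => f^[n] p :=
    funext fun n => cj_iter T f g hg n p
  ext y
  constructor
  · intro hy
    refine ⟨T.symm y, ?_, T.apply_symm_apply y⟩
    have h2 : MapClusterPt y atTop (T ∘ fun n : ℕ => f^[n] p) := by
      rw [← h1]
      exact hy
    have h3 := h2.continuousAt_comp (f := T.symm) T.symm.continuous.continuousAt
    have h4 : (T.symm ∘ (T ∘ fun n : ℕ => f^[n] p)) = fun n : ℕ => f^[n] p := by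
      funext n
      exact T.symm_apply_apply _
    rw [h4] at h3
    exact h3
  · rintro ⟨x, hx, rfl⟩
    have h2 : MapClusterPt x atTop (fun n : ℕ => f^[n] p) := hx
    have h3 := h2.continuousAt_comp (f := T) T.continuous.continuousAt
    change MapClusterPt (T x) atTop (fun n : ℕ => g^[n] (T p))
    rw [h1]
    exact h3

theorem basin_cj (g : X → X) (hg : ∀ x, g (T x) = T (f x)) (Λ : Set X) :
    basin g (T '' Λ) = T '' basin f Λ := by
  ext y
  obtain ⟨p, rfl⟩ := T.surjective y
  constructor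
  · intro h
    refine ⟨p, ?_, rfl⟩
    have h1 : omegaLim g (T p) ⊆ T '' Λ := h
    rw [omegaLim_cj T f g hg, image_subset_image_iff T.injective] at h1
    exact h1
  · rintro ⟨p', hp', hpp⟩
    rw [T.injective hpp] at hp'
    change omegaLim g (T p) ⊆ T '' Λ
    rw [omegaLim_cj T f g hg, image_subset_image_iff T.injective]
    exact hp'

end conj

theorem t_cjatt : S_CJATT := by
  rintro d A T - hT - f ⟨n, Λ, hΛ, hvol⟩
  have hg : ∀ x, cjT T f (T x) = T (f x) := by
    intro x
    change T (f (T.symm (T x))) = T (f x)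
    rw [T.symm_apply_apply]
  refine ⟨n, fun i => T '' Λ i, fun i => ?_, ?_⟩
  · obtain ⟨h1, ⟨x, hx, h2⟩, h3⟩ := hΛ i
    refine ⟨?_, ?_, ?_⟩
    · rw [← image_comp]
      have h4 : (⇑(cjT T f) ∘ ⇑T) = ⇑T ∘ ⇑f := funext hg
      rw [h4, image_comp, h1]
    · refine ⟨T x, mem_image_of_mem _ hx, ?_⟩
      have h4 : range (fun n : ℕ => (cjT T f)^[n] (T x)) = T '' range (fun n : ℕ => f^[n] x) := by
        rw [← range_comp]
        congr 1
        funext n
        exact cj_iter T f (cjT T f) hg n x
      rw [h4, ← T.image_closure]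
      exact image_mono h2
    · rw [basin_cj T f (cjT T f) hg, vol_image hT]
      exact h3
  · have h4 : (⋃ i, basin (cjT T f) (T '' Λ i))ᶜ = T '' (⋃ i, basin f (Λ i))ᶜ := by
      rw [image_compl_eq T.bijective, image_iUnion]
      congr 1
      refine iUnion_congr fun i => ?_
      exact basin_cj T f (cjT T f) hg (Λ i)
    rw [h4, vol_image hT, hvol]

end Pool.Agent.Y210.LF
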