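import Pool.Agent.Y318.LF.Stm

set_option autoImplicit false

/-! Project LF, task PRIM. -/

open Set Filter Topology

namespace Pool.Agent.Y210.LF

open Pool.Agent.H728R2.OS Pool.Agent.H637R2.TD Pool.Agent.Y318.LF

/-- a nonzero integer vector is a multiple of a member of a basis -/
theorem exists_equiv {d : ℕ} (b : Fin (d + 1) → ℤ) (hb : b ≠ 0) :
    ∃ (L : (Fin (d + 1) → ℤ) ≃ₗ[ℤ] (Fin (d + 1) → ℤ)) (m : ℤ), m ≠ 0 ∧
      L b = m • (Pi.single 0 1 : Fin (d + 1) → ℤ) := by
  obtain ⟨n, snf⟩ := Submodule.smithNormalForm (Pi.basisFun ℤ (Fin (d + 1)))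
    (Submodule.span ℤ {b})
  have e : ℤ ≃ₗ[ℤ] Submodule.span ℤ {b} := LinearEquiv.toSpanNonzeroSingleton ℤ _ b hb
  have hfr : Module.finrank ℤ (Submodule.span ℤ {b}) = 1 := by
    rw [← e.finrank_eq, Module.finrank_self]
  have hn : n = 1 := by
    rw [Module.finrank_eq_card_basis snf.bN, Fintype.card_fin] at hfr
    exact hfr
  subst hn
  have h1 : b ∈ Submodule.span ℤ {b} := Submodule.mem_span_singleton_self b
  have h2 := snf.bN.sum_repr ⟨b, h1⟩
  rw [Fin.sum_univ_one] at h2
  set r := snf.bN.repr ⟨b, h1⟩ 0 with hr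
  have h3 : b = (r * snf.a 0) • snf.bM (snf.f 0) := by
    have h4 := congrArg Subtype.val h2
    have h5 : r • ((snf.bN 0 : Submodule.span ℤ {b}) : Fin (d + 1) → ℤ) = b := h4
    rw [snf.snf, smul_smul] at h5
    exact h5.symm
  set B := snf.bM.reindex (Equiv.swap (snf.f 0) 0) with hB
  have hB0 : B 0 = snf.bM (snf.f 0) := by
    rw [hB, Module.Basis.reindex_apply, Equiv.symm_swap, Equiv.swap_apply_right]
  refine ⟨B.equivFun, r * snf.a 0, ?_, ?_⟩
  · intro h
    rw [h, zero_smul] at h3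
    exact hb h3
  · have h6 := congrArg B.equivFun h3
    rw [map_smul, ← hB0] at h6
    rw [h6]
    congr 1
    funext i
    rw [Module.Basis.equivFun_self, Pi.single_apply]
    simp only [eq_comm]

theorem prim : S_PRIM := by
  intro d b hb hb0
  choose bz hbz using hb
  have hbz0 : bz ≠ 0 := by
    rintro rfl
    apply hb0
    funext i
    rw [hbz i]
    simp
  obtain ⟨L, m, hm, hL⟩ := exists_equiv bz hbz0
  set M := LinearMap.toMatrix' (L : (Fin (d + 1) → ℤ) →ₗ[ℤ] (Fin (d + 1) → ℤ)) with hM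
  set M' := LinearMap.toMatrix' (L.symm : (Fin (d + 1) → ℤ) →ₗ[ℤ] (Fin (d + 1) → ℤ)) with hM'
  have hMM' : M * M' = 1 := by
    rw [hM, hM', ← LinearMap.toMatrix'_comp, LinearEquiv.comp_symm, LinearMap.toMatrix'_id]
  have hM'M : M' * M = 1 := by
    rw [hM, hM', ← LinearMap.toMatrix'_comp, LinearEquiv.symm_comp, LinearMap.toMatrix'_id]
  set Mr := M.map (Int.castRingHom ℝ) with hMr
  set Mr' := M'.map (Int.castRingHom ℝ) with hMr'
  have h1 : Mr * Mr' = 1 := by
    rw [hMr, hMr', ← Matrix.map_mul, hMM', Matrix.map_one _ (map_zero _) (map_one _)]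
  have h2 : Mr' * Mr = 1 := by
    rw [hMr, hMr', ← Matrix.map_mul, hM'M, Matrix.map_one _ (map_zero _) (map_one _)]
  set A := (LinearEquiv.ofLinear (Matrix.toLin' Mr) (Matrix.toLin' Mr')
    (by rw [← Matrix.toLin'_mul, h1, Matrix.toLin'_one])
    (by rw [← Matrix.toLin'_mul, h2, Matrix.toLin'_one])).toContinuousLinearEquiv with hA
  have hA1 : ∀ z, A z = Mr.mulVec z := by
    intro z
    rw [hA, LinearEquiv.coe_toContinuousLinearEquiv', LinearEquiv.ofLinear_apply,
      Matrix.toLin'_apply]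
  have hA2 : ∀ z, A.symm z = Mr'.mulVec z := by
    intro z
    rw [hA, LinearEquiv.coe_toContinuousLinearEquiv_symm', LinearEquiv.ofLinear_symm_apply,
      Matrix.toLin'_apply]
  have hc1 : ∀ n : Fin (d + 1) → ℤ, A (fun i => (n i : ℝ)) = fun i => ((L n i : ℤ) : ℝ) := by
    intro n
    rw [hA1]
    funext i
    have h3 := RingHom.map_mulVec (Int.castRingHom ℝ) M n i
    have h4 : M.mulVec n = L n := by
      rw [hM, LinearMap.toMatrix'_mulVec]
      rfl
    rw [h4] at h3
    exact h3.symm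
  have hc2 : ∀ n : Fin (d + 1) → ℤ,
      A.symm (fun i => (n i : ℝ)) = fun i => ((L.symm n i : ℤ) : ℝ) := by
    intro n
    rw [hA2]
    funext i
    have h3 := RingHom.map_mulVec (Int.castRingHom ℝ) M' n i
    have h4 : M'.mulVec n = L.symm n := by
      rw [hM', LinearMap.toMatrix'_mulVec]
      rfl
    rw [h4] at h3
    exact h3.symm
  refine ⟨A, ?_, (m : ℝ), by exact_mod_cast hm, ?_⟩
  · intro z
    constructor
    · intro hz
      choose n hn using hz
      have h3 : A z = fun i => (n i : ℝ) := funext hn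
      have h4 : z = A.symm (fun i => (n i : ℝ)) := by
        rw [← h3, ContinuousLinearEquiv.symm_apply_apply]
      rw [h4, hc2]
      exact fun i => ⟨_, rfl⟩
    · intro hz
      choose n hn using hz
      have h3 : z = fun i => (n i : ℝ) := funext hn
      rw [h3, hc1]
      exact fun i => ⟨_, rfl⟩
  · have h3 : b = fun i => (bz i : ℝ) := funext hbz
    rw [h3, hc1, hL]
    funext i
    rw [Pi.smul_apply, Pi.smul_apply, smul_eq_mul, smul_eq_mul, Int.cast_mul]
    congr 1
    by_cases hi : i = 0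
    · subst hi
      simp
    · rw [Pi.single_eq_of_ne hi, Pi.single_eq_of_ne hi, Int.cast_zero]

end Pool.Agent.Y210.LF
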