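import Pool.Agent.Y318.LF.Stm

set_option autoImplicit false

/-! Project LF, task QUOT2. -/

open Set Filter Topology

namespace Pool.Agent.Y210.LF

open Pool.Agent.H728R2.OS Pool.Agent.H637R2.TD Pool.Agent.Y318.LF

/-- the last coordinates -/
noncomputable def prC (j c : ℕ) : (Fin (j + c) → ℝ) →L[ℝ] (Fin c → ℝ) :=
  ContinuousLinearMap.pi fun i => ContinuousLinearMap.proj (Fin.natAdd j i)

theorem prC_apply {j c : ℕ} (z : Fin (j + c) → ℝ) (i : Fin c) :
    prC j c z i = z (Fin.natAdd j i) := rfl

/-- the embedding -/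
noncomputable def emL (j c : ℕ) : (Fin c → ℝ) →ₗ[ℝ] (Fin (j + c) → ℝ) where
  toFun x := Fin.append (0 : Fin j → ℝ) x
  map_add' a b := by
    funext i
    refine Fin.addCases (fun i => ?_) (fun i => ?_) i
    · rw [Pi.add_apply, Fin.append_left, Fin.append_left, Fin.append_left, Pi.zero_apply, add_zero]
    · rw [Pi.add_apply, Fin.append_right, Fin.append_right, Fin.append_right, Pi.add_apply]
  map_smul' r a := by
    funext i
    refine Fin.addCases (fun i => ?_) (fun i => ?_) i
    · rw [Pi.smul_apply, Fin.append_left, Fin.append_left, Pi.zero_apply, smul_zero]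
    · rw [Pi.smul_apply, Fin.append_right, Fin.append_right, Pi.smul_apply, RingHom.id_apply]

/-- the embedding, continuous -/
noncomputable def emC (j c : ℕ) : (Fin c → ℝ) →L[ℝ] (Fin (j + c) → ℝ) :=
  LinearMap.toContinuousLinearMap (emL j c)

theorem emC_apply {j c : ℕ} (x : Fin c → ℝ) : emC j c x = Fin.append (0 : Fin j → ℝ) x := rfl

theorem pr_em {j c : ℕ} (x : Fin c → ℝ) : prC j c (emC j c x) = x := by
  funext i
  rw [prC_apply, emC_apply, Fin.append_right]

theorem sub_mem_std {j c : ℕ} (z : Fin (j + c) → ℝ) :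
    z - emC j c (prC j c z) ∈ std (j + c) j := by
  intro i hi
  revert hi
  refine Fin.addCases (fun i hi => ?_) (fun i hi => ?_) i
  · exfalso
    rw [Fin.val_castAdd] at hi
    omega
  · rw [Pi.sub_apply, emC_apply, Fin.append_right, prC_apply, sub_self]

theorem pr_eq_zero {j c : ℕ} {w : Fin (j + c) → ℝ} (h : w ∈ std (j + c) j) : prC j c w = 0 := by
  funext i
  rw [prC_apply]
  exact h _ (by rw [Fin.val_natAdd]; omega)

theorem isInt_em {j c : ℕ} {n : Fin c → ℝ} (hn : IsInt n) : IsInt (emC j c n) := by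
  intro i
  refine Fin.addCases (fun i => ?_) (fun i => ?_) i
  · exact ⟨0, by rw [emC_apply, Fin.append_left, Pi.zero_apply, Int.cast_zero]⟩
  · obtain ⟨m, hm⟩ := hn i
    exact ⟨m, by rw [emC_apply, Fin.append_right, hm]⟩

theorem t : S_QUOT2 := by
  intro j c r F hF h1 h2
  obtain ⟨G, hG, hGF, hFG⟩ := hF.inv
  have h2' := h2 G hG.continuous hGF hFG
  have key : ∀ (H : (Fin (j + c) → ℝ) → (Fin (j + c) → ℝ)),
      (∀ z w, w ∈ std (j + c) j → H (z + w) - H z ∈ std (j + c) j) →
      ∀ z, prC j c (H z) = prC j c (H (emC j c (prC j c z))) := by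
    intro H hH z
    have h3 := pr_eq_zero (hH (emC j c (prC j c z)) _ (sub_mem_std z))
    rw [add_sub_cancel, map_sub, sub_eq_zero] at h3
    exact h3
  have h1' := h1 j le_rfl
  refine ⟨fun x => prC j c (F (emC j c x)),
    ⟨?_, ?_, fun x => prC j c (G (emC j c x)), ?_, ?_, ?_⟩, ?_, ?_⟩
  · exact (prC j c).contDiff.comp (hF.smooth.comp (emC j c).contDiff)
  · intro z n hn
    rw [map_add, hF.per _ _ (isInt_em hn), map_add, pr_em]
  · exact (prC j c).contDiff.comp (hG.comp (emC j c).contDiff)
  · intro z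
    show prC j c (G (emC j c (prC j c (F (emC j c z))))) = z
    rw [← key G h2', hGF, pr_em]
  · intro z
    show prC j c (F (emC j c (prC j c (G (emC j c z))))) = z
    rw [← key F h1', hFG, pr_em]
  · intro k z w hw i hi
    show (prC j c (F (emC j c (z + w))) - prC j c (F (emC j c z))) i = 0
    have h3 : emC j c w ∈ std (j + c) (j + k) := by
      intro i hi
      revert hi
      refine Fin.addCases (fun i hi => ?_) (fun i hi => ?_) i
      · rw [emC_apply, Fin.append_left, Pi.zero_apply]
      · rw [emC_apply, Fin.append_right]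
        rw [Fin.val_natAdd] at hi
        exact hw i (by omega)
    have h4 := h1 (j + k) (by omega) (emC j c z) _ h3 (Fin.natAdd j i)
      (by rw [Fin.val_natAdd]; omega)
    rw [← map_add] at h4
    exact h4
  · intro z i
    exact congrFun (key F h1' z) i

end Pool.Agent.Y210.LF
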